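import Pool.Agent.H68.CW.Final

/-!
Triangle-free atoms without `S_{1,2,3}`, or without `P_1 + S_{1,1,3}`, have bounded clique-width.
-/

set_option autoImplicit false

namespace Pool.Agent.Results.MP_43eff6_co.TriangleFreeAtoms

open Pool.Agent.H68.CW

/-- an atom: a connected graph such that no clique `K` (possibly empty) disconnects it -/
def IsAtom {V : Type} (G : SimpleGraph V) : Prop :=
  G.Connected ∧ ∀ K : Set V, G.IsClique K → (G.induce Kᶜ).Preconnected

/-- For both `H₂ ∈ {S_{1,2,3}, P_1 + S_{1,1,3}}` the `(K_3, H₂)`-free atoms have bounded clique-width. -/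
theorem result :
    (∃ k : ℕ, ∀ (V : Type) [Finite V] (G : SimpleGraph V), IsAtom G →
      IsEmpty ((⊤ : SimpleGraph (Fin 3)) ↪g G) → IsEmpty (S123 ↪g G) → CwLE G k) ∧
    ∃ k : ℕ, ∀ (V : Type) [Finite V] (G : SimpleGraph V), IsAtom G →
      IsEmpty ((⊤ : SimpleGraph (Fin 3)) ↪g G) → IsEmpty (P1S113 ↪g G) → CwLE G k := by
  obtain ⟨k, hk⟩ := cw_S
  obtain ⟨m, hm⟩ := cw_P
  refine ⟨⟨k, fun V _ G hA h3 hS => ?_⟩, ⟨m, fun V _ G hA h3 hP => ?_⟩⟩
  · have := hA.1.nonempty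
    exact hk V G h3 hS
  · have := hA.1.nonempty
    exact hm V G h3 hP

end Pool.Agent.Results.MP_43eff6_co.TriangleFreeAtoms
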